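import Pool.Agent.KS6_90.HD.Val

/-! Every uniformly separated uncountable family gives normalised differences that are far apart. -/

open scoped ENNReal
open Set Filter

namespace Pool.Agent.KS6_90.HD

open Pool.Agent.Helper627_Conc

variable {𝕜 : Type} [RCLike 𝕜] {Ω : Type} (r : Ω → ℕ → Bool) (Z : Ω → Ω → Prop)

/-- the numerical estimate -/
theorem num_est {A D ε ε₀ η c : ℝ} (hε : 0 < ε) (hη : 0 < η) (_hc0 : 0 ≤ c)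
    (hcη : c = 3/2 - η) (h1 : ε ≤ η / 4) (h2 : ε ≤ ε₀ / 8) (h3 : ε ≤ η * ε₀ / 60)
    (_hε₀ : 0 < ε₀) (hA : 0 ≤ A) (hD : D = A + (1/4) * ε * A + 2 * ε) (hDε : ε₀ ≤ D) :
    0 ≤ (3/4) * A - 2 * ε ∧ c * D < 2 * ((3/4) * A - 2 * ε) := by
  have hη2 : η ≤ 3/2 := by linarith
  have hε38 : ε ≤ 3/8 := by linarith
  have hA2 : ε₀ / 2 ≤ A := by
    have h4 : (1/4) * ε * A ≤ (3/32) * A := by nlinarith
    linarith
  constructor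
  · linarith
  · rw [hD, hcη]
    have h5 : ε * A ≤ (η / 4) * A := mul_le_mul_of_nonneg_right h1 hA
    have h6 : η * (ε₀ / 2) ≤ η * A := mul_le_mul_of_nonneg_left hA2 hη.le
    have h7 : 0 ≤ η * (ε * A) := by positivity
    have h8 : 0 < η * ε := by positivity
    nlinarith

theorem main_family (hr : Function.Injective r) [Nonempty Ω]
    (hZ1 : ∀ S : Set Ω, ¬ S.Countable → ∃ a ∈ S, ∃ b ∈ S, a ≠ b ∧ Z a b)
    (hZ0 : ∀ (J ι : Type) (_ : Finite ι) (F : J → ι → Ω) (I : Set J), ¬ I.Countable →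
        ∃ α ∈ I, ∃ β ∈ I, α ≠ β ∧ ∀ i, F α i = F β i ∨
          (¬ Z (F α i) (F β i) ∧ ¬ Z (F β i) (F α i)))
    {J : Type} (w : J → EE 𝕜 Ω) (I : Set J) (hI : ¬ I.Countable)
    (hwX : ∀ α ∈ I, w α ∈ XX 𝕜 r Z hr) {ε₀ : ℝ} (hε₀ : 0 < ε₀)
    (hsepw : ∀ α ∈ I, ∀ β ∈ I, α ≠ β → ε₀ ≤ ‖w α - w β‖) {c : ℝ} (hc : c < 3/2) :
    ∃ P : Set (J × J), ¬ P.Countable ∧ (∀ p ∈ P, p.1 ∈ I ∧ p.2 ∈ I ∧ p.1 ≠ p.2) ∧
      ∀ Q ⊆ P, ¬ Q.Countable → ∃ p ∈ Q, ∃ q ∈ Q, p ≠ q ∧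
        c < ‖((‖w p.1 - w p.2‖⁻¹ : ℝ) : 𝕜) • (w p.1 - w p.2) -
          ((‖w q.1 - w q.2‖⁻¹ : ℝ) : 𝕜) • (w q.1 - w q.2)‖ := by
  classical
  set c' : ℝ := max c 0 with hc'
  have hc'0 : 0 ≤ c' := le_max_right _ _
  have hc'2 : c' < 3/2 := max_lt hc (by norm_num)
  set η : ℝ := 3/2 - c' with hηd
  have hη : 0 < η := by linarith
  set ε : ℝ := min (η / 4) (min (ε₀ / 8) (η * ε₀ / 60)) with hεd
  have hε : 0 < ε := lt_min (by positivity) (lt_min (by positivity) (by positivity))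
  have he1 : ε ≤ η / 4 := min_le_left _ _
  have he2 : ε ≤ ε₀ / 8 := (min_le_right _ _).trans (min_le_left _ _)
  have he3 : ε ≤ η * ε₀ / 60 := (min_le_right _ _).trans (min_le_right _ _)
  obtain ⟨n, a, m, s, I₁, F, hI₁I, hI₁c, hs, hm, hF⟩ := exists_code r Z hr w I hI hwX hε
  obtain ⟨I₂, hI₂I₁, hI₂c, hconst⟩ := refine_all F I₁ hI₁c
  obtain ⟨P, hPc, hP, hPd⟩ := many_pairs
    (fun α β => ∀ i, F α i = F β i ∨ (¬ Z (F α i) (F β i) ∧ ¬ Z (F β i) (F α i))) I₂ hI₂c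
    (fun I' _ hI' => hZ0 J (Fin n) inferInstance F I' hI')
  have hPI : ∀ p ∈ P, p.1 ∈ I₁ ∧ p.2 ∈ I₁ := fun p hp =>
    ⟨hI₂I₁ (hP p hp).1, hI₂I₁ (hP p hp).2.1⟩
  refine ⟨P, hPc, fun p hp => ⟨hI₁I (hPI p hp).1, hI₁I (hPI p hp).2, (hP p hp).2.2.1⟩, ?_⟩
  -- the coefficients that matter
  let inj : Fin n → Prop := fun i => ∀ α ∈ I₂, ∀ β ∈ I₂, α ≠ β → F α i ≠ F β i
  let b : Fin n → 𝕜 := fun i => if inj i then a i else 0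
  let v : J × J → EE 𝕜 Ω := fun p =>
    ∑ i, b i • (zz 𝕜 r Z hr (F p.1 i) - zz 𝕜 r Z hr (F p.2 i))
  have hv : ∀ p ∈ P, v p = ∑ i, a i • (zz 𝕜 r Z hr (F p.1 i) - zz 𝕜 r Z hr (F p.2 i)) := by
    intro p hp
    refine Finset.sum_congr rfl fun i _ => ?_
    by_cases h : inj i
    · simp only [b, if_pos h]
    · rcases hconst i with h1 | h1
      · rw [h1 p.1 (hP p hp).1 p.2 (hP p hp).2.1, sub_self, smul_zero, smul_zero]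
      · exact absurd h1 h
  have hyv : ∀ p ∈ P, ‖(w p.1 - w p.2) - v p‖ ≤ 2 * ε := by
    intro p hp
    rw [hv p hp]
    have h1 := (hF p.1 (hPI p hp).1).2
    have h2 := (hF p.2 (hPI p hp).2).2
    have h3 : (w p.1 - w p.2) - ∑ i, a i • (zz 𝕜 r Z hr (F p.1 i) - zz 𝕜 r Z hr (F p.2 i)) =
        (w p.1 - ∑ i, a i • zz 𝕜 r Z hr (F p.1 i)) -
          (w p.2 - ∑ i, a i • zz 𝕜 r Z hr (F p.2 i)) := by
      simp only [smul_sub, Finset.sum_sub_distrib]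
      abel
    rw [h3]
    refine (norm_sub_le _ _).trans ?_
    linarith
  have hPne : P.Nonempty := by
    by_contra hemp
    rw [Set.not_nonempty_iff_eq_empty] at hemp
    rw [hemp] at hPc
    exact hPc Set.countable_empty
  obtain ⟨p₀, hp₀⟩ := hPne
  have hy₀ : ε₀ ≤ ‖w p₀.1 - w p₀.2‖ :=
    hsepw _ (hI₁I (hPI p₀ hp₀).1) _ (hI₁I (hPI p₀ hp₀).2) (hP p₀ hp₀).2.2.1
  have hn : Nonempty (Fin n) := by
    by_contra hemp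
    rw [not_nonempty_iff] at hemp
    have h1 := hyv p₀ hp₀
    have h2 : v p₀ = 0 := by simp only [v, Finset.univ_eq_empty, Finset.sum_empty]
    rw [h2, sub_zero] at h1
    linarith
  obtain ⟨i₀, hi₀⟩ := Finite.exists_max (fun i => ‖b i‖)
  set A : ℝ := ‖b i₀‖ with hAd
  have hA0 : 0 ≤ A := norm_nonneg _
  set D : ℝ := A + (1/4) * ε * A + 2 * ε with hDd
  have hD : ∀ p ∈ P, ‖w p.1 - w p.2‖ ≤ D := by
    intro p hp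
    have h1 : ‖v p‖ ≤ A + (1/4) * (1/2)^m * A := by
      refine est1 r Z hr (F := F p.1) (G := F p.2) ?_ ?_ (hP p hp).2.2.2 b hA0 hi₀
      · intro i k hk
        rw [(hF p.1 (hPI p hp).1).1 i ⟨k, hk⟩, (hF p.2 (hPI p hp).2).1 i ⟨k, hk⟩]
      · intro i j hij
        by_contra hcon
        push Not at hcon
        apply hs i j hij
        funext l
        rw [← (hF p.1 (hPI p hp).1).1 i l, ← (hF p.1 (hPI p hp).1).1 j l]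
        exact hcon l l.2
    have h2 : (1/4) * (1/2)^m * A ≤ (1/4) * ε * A :=
      mul_le_mul_of_nonneg_right (mul_le_mul_of_nonneg_left hm (by norm_num)) hA0
    have h3 : w p.1 - w p.2 = ((w p.1 - w p.2) - v p) + v p := by abel
    rw [h3]
    refine (norm_add_le _ _).trans ?_
    have h4 := hyv p hp
    rw [hDd]; linarith
  have hDε : ε₀ ≤ D := hy₀.trans (hD p₀ hp₀)
  obtain ⟨hnum1, hnum2⟩ := num_est hε hη hc'0 (by rw [hηd]; ring) he1 he2 he3 hε₀ hA0 hDd hDε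
  have hApos : 0 < A := by
    by_contra hcon
    have h1 : A = 0 := le_antisymm (not_lt.1 hcon) hA0
    rw [h1] at hnum1
    linarith
  have hinj : inj i₀ := by
    by_contra h
    have h1 : b i₀ = 0 := by simp only [b, if_neg h]
    rw [hAd, h1, norm_zero] at hApos
    exact lt_irrefl _ hApos
  intro Q hQP hQc
  -- a common deep cylinder
  let Cd : Type := Σ ℓ : ℕ, (Fin (max m (ℓ + 1)) → Bool)
  let QQ : Cd → Set (J × J) := fun d =>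
    {p | p ∈ Q ∧ lev r (F p.1 i₀) (F p.2 i₀) = d.1 ∧
      ∀ k : Fin (max m (d.1 + 1)), r (F p.1 i₀) k = d.2 k}
  obtain ⟨d, hd⟩ : ∃ d : Cd, ¬ (QQ d).Countable := by
    by_contra hall
    push Not at hall
    apply hQc
    refine (Set.countable_iUnion hall).mono fun p hp => ?_
    exact Set.mem_iUnion.2 ⟨⟨lev r (F p.1 i₀) (F p.2 i₀), fun k => r (F p.1 i₀) k⟩, hp, rfl,
      fun k => rfl⟩
  obtain ⟨ℓ, t⟩ := d
  have hSc : ¬ ((fun p : J × J => F p.1 i₀) '' (QQ ⟨ℓ, t⟩)).Countable := by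
    intro h
    apply hd
    refine Set.countable_of_injective_of_countable_image ?_ h
    intro p hp q hq hpq
    by_contra hne
    exact hinj _ (hP p (hQP hp.1)).1 _ (hP q (hQP hq.1)).1
      (hPd p (hQP hp.1) q (hQP hq.1) hne) hpq
  obtain ⟨_, ⟨p, hp, rfl⟩, _, ⟨q, hq, rfl⟩, hab, hZab⟩ := hZ1 _ hSc
  have hpq : p ≠ q := by rintro rfl; exact hab rfl
  have hpP := hQP hp.1
  have hqP := hQP hq.1
  refine ⟨p, hp.1, q, hq.1, hpq, ?_⟩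
  simp only at hab hZab
  set x : Ω := F p.1 i₀ with hx
  set y : Ω := F q.1 i₀ with hy
  have hlev : max m (ℓ + 1) ≤ lev r x y := by
    refine lev_gt r hr hab fun k hk => ?_
    rw [hp.2.2 ⟨k, hk⟩, hq.2.2 ⟨k, hk⟩]
  have hmlev : m ≤ lev r x y := (le_max_left _ _).trans hlev
  have hℓlev : ℓ < lev r x y := (le_max_right _ _).trans hlev
  have hxm : ∀ l : Fin m, r x l = s i₀ l := fun l => (hF p.1 (hPI p hpP).1).1 i₀ l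
  have hoff : ∀ ζ : Ω, ∀ i, i ≠ i₀ → (∀ l : Fin m, r ζ l = s i l) →
      phi r Z (Sum.inr (x, y)) ζ = 0 := by
    intro ζ i hi hζ
    have h1 : ∃ l : Fin m, s i l ≠ s i₀ l := by
      by_contra hcon
      push Not at hcon
      exact hs i i₀ hi (funext hcon)
    obtain ⟨l, hl⟩ := h1
    refine phi_off r Z hr hab hZab (k := l) (l.2.trans_le hmlev) ?_
    rw [hζ l, hxm l]
    exact hl
  have hoff2 : ∀ p' : J × J, p' ∈ QQ ⟨ℓ, t⟩ → phi r Z (Sum.inr (x, y)) (F p'.2 i₀) = 0 := by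
    intro p' hp'
    have hp'P := hQP hp'.1
    have hne : F p'.1 i₀ ≠ F p'.2 i₀ :=
      hinj _ (hP p' hp'P).1 _ (hP p' hp'P).2.1 (hP p' hp'P).2.2.1
    have h1 := (lev_spec r hr hne).1
    rw [hp'.2.1] at h1
    refine phi_off r Z hr hab hZab (k := ℓ) hℓlev ?_
    have h2 : ℓ < max m (ℓ + 1) := lt_of_lt_of_le (Nat.lt_succ_self _) (le_max_right _ _)
    have h3 : r x ℓ = r (F p'.1 i₀) ℓ := by
      rw [hp'.2.2 ⟨ℓ, h2⟩, hp.2.2 ⟨ℓ, h2⟩]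
    rw [h3]
    exact fun h => h1 h.symm
  have hcv : ∀ p' : J × J, p' ∈ QQ ⟨ℓ, t⟩ → cu (Sum.inr (x, y)) (v p') =
      b i₀ * ((phi r Z (Sum.inr (x, y)) (F p'.1 i₀) : ℝ) : 𝕜) := by
    intro p' hp'
    have hp'P := hQP hp'.1
    simp only [v, map_sum, map_smul, map_sub, cu_zz, smul_eq_mul]
    rw [Finset.sum_eq_single i₀]
    · rw [hoff2 p' hp']; simp
    · intro i _ hi
      rw [hoff _ i hi (fun l => (hF p'.1 (hPI p' hp'P).1).1 i l),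
        hoff _ i hi (fun l => (hF p'.2 (hPI p' hp'P).2).1 i l)]
      simp
    · intro h; exact absurd (Finset.mem_univ _) h
  have hcp : cu (Sum.inr (x, y)) (v p) = b i₀ * ((3/4 : ℝ) : 𝕜) := by
    rw [hcv p hp, phi_fst r Z hr hab hZab]
  have hcq : cu (Sum.inr (x, y)) (v q) = - (b i₀ * ((3/4 : ℝ) : 𝕜)) := by
    rw [hcv q hq, phi_snd r Z hr hab hZab]
    push_cast
    ring
  set yp : EE 𝕜 Ω := w p.1 - w p.2 with hyp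
  set yq : EE 𝕜 Ω := w q.1 - w q.2 with hyq
  have hypε : ε₀ ≤ ‖yp‖ :=
    hsepw _ (hI₁I (hPI p hpP).1) _ (hI₁I (hPI p hpP).2) (hP p hpP).2.2.1
  have hyqε : ε₀ ≤ ‖yq‖ :=
    hsepw _ (hI₁I (hPI q hqP).1) _ (hI₁I (hPI q hqP).2) (hP q hqP).2.2.1
  have hyp0 : 0 < ‖yp‖ := lt_of_lt_of_le hε₀ hypε
  have hyq0 : 0 < ‖yq‖ := lt_of_lt_of_le hε₀ hyqε
  have hD0 : 0 < D := lt_of_lt_of_le hε₀ hDε
  have hkey : cu (Sum.inr (x, y)) (((‖yp‖⁻¹ : ℝ) : 𝕜) • yp - ((‖yq‖⁻¹ : ℝ) : 𝕜) • yq) =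
      ((‖yp‖⁻¹ + ‖yq‖⁻¹ : ℝ) : 𝕜) * (b i₀ * ((3/4 : ℝ) : 𝕜)) +
      (((‖yp‖⁻¹ : ℝ) : 𝕜) * cu (Sum.inr (x, y)) (yp - v p) -
        ((‖yq‖⁻¹ : ℝ) : 𝕜) * cu (Sum.inr (x, y)) (yq - v q)) := by
    simp only [map_sub, map_smul, smul_eq_mul, hcp, hcq]
    push_cast
    ring
  have hn1 : ‖((‖yp‖⁻¹ + ‖yq‖⁻¹ : ℝ) : 𝕜) * (b i₀ * ((3/4 : ℝ) : 𝕜))‖ =
      (‖yp‖⁻¹ + ‖yq‖⁻¹) * ((3/4) * A) := by
    rw [norm_mul, norm_mul, RCLike.norm_ofReal, RCLike.norm_ofReal, abs_of_pos (by positivity),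
      abs_of_pos (by norm_num : (0:ℝ) < 3/4)]
    ring
  have hn2 : ‖((‖yp‖⁻¹ : ℝ) : 𝕜) * cu (Sum.inr (x, y)) (yp - v p) -
        ((‖yq‖⁻¹ : ℝ) : 𝕜) * cu (Sum.inr (x, y)) (yq - v q)‖ ≤
      (‖yp‖⁻¹ + ‖yq‖⁻¹) * (2 * ε) := by
    refine (norm_sub_le _ _).trans ?_
    rw [norm_mul, norm_mul, RCLike.norm_ofReal, RCLike.norm_ofReal,
      abs_of_pos (by positivity : (0:ℝ) < ‖yp‖⁻¹), abs_of_pos (by positivity : (0:ℝ) < ‖yq‖⁻¹)]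
    have h1 : ‖cu (Sum.inr (x, y)) (yp - v p)‖ ≤ 2 * ε :=
      (norm_cu_le' _ _).trans (hyv p hpP)
    have h2 : ‖cu (Sum.inr (x, y)) (yq - v q)‖ ≤ 2 * ε :=
      (norm_cu_le' _ _).trans (hyv q hqP)
    have h3 := mul_le_mul_of_nonneg_left h1 (by positivity : (0:ℝ) ≤ ‖yp‖⁻¹)
    have h4 := mul_le_mul_of_nonneg_left h2 (by positivity : (0:ℝ) ≤ ‖yq‖⁻¹)
    linarith
  have hlow : (‖yp‖⁻¹ + ‖yq‖⁻¹) * ((3/4) * A - 2 * ε) ≤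
      ‖((‖yp‖⁻¹ : ℝ) : 𝕜) • yp - ((‖yq‖⁻¹ : ℝ) : 𝕜) • yq‖ := by
    have h1 := norm_cu_le' (𝕜 := 𝕜) (Sum.inr (x, y))
      (((‖yp‖⁻¹ : ℝ) : 𝕜) • yp - ((‖yq‖⁻¹ : ℝ) : 𝕜) • yq)
    rw [hkey] at h1
    have h2 := norm_sub_le_norm_add (((‖yp‖⁻¹ + ‖yq‖⁻¹ : ℝ) : 𝕜) * (b i₀ * ((3/4 : ℝ) : 𝕜)))
      (((‖yp‖⁻¹ : ℝ) : 𝕜) * cu (Sum.inr (x, y)) (yp - v p) -
        ((‖yq‖⁻¹ : ℝ) : 𝕜) * cu (Sum.inr (x, y)) (yq - v q))
    rw [hn1] at h2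
    have h3 : (‖yp‖⁻¹ + ‖yq‖⁻¹) * ((3/4) * A - 2 * ε) =
      (‖yp‖⁻¹ + ‖yq‖⁻¹) * ((3/4) * A) - (‖yp‖⁻¹ + ‖yq‖⁻¹) * (2 * ε) := by ring
    linarith
  have hinvp : D⁻¹ ≤ ‖yp‖⁻¹ := inv_anti₀ hyp0 (hD p hpP)
  have hinvq : D⁻¹ ≤ ‖yq‖⁻¹ := inv_anti₀ hyq0 (hD q hqP)
  have hfin : c' < (‖yp‖⁻¹ + ‖yq‖⁻¹) * ((3/4) * A - 2 * ε) := by
    have h1 : (D⁻¹ + D⁻¹) * ((3/4) * A - 2 * ε) ≤
        (‖yp‖⁻¹ + ‖yq‖⁻¹) * ((3/4) * A - 2 * ε) :=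
      mul_le_mul_of_nonneg_right (add_le_add hinvp hinvq) hnum1
    have h2 : c' < (D⁻¹ + D⁻¹) * ((3/4) * A - 2 * ε) := by
      have h3 : (D⁻¹ + D⁻¹) * ((3/4) * A - 2 * ε) = (2 * ((3/4) * A - 2 * ε)) / D := by
        field_simp
        ring
      rw [h3, lt_div_iff₀ hD0]
      exact hnum2
    linarith
  exact lt_of_le_of_lt (le_max_left c 0) (lt_of_lt_of_le hfin hlow)

end Pool.Agent.KS6_90.HD
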