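import Mathlib

/-! Refinements of uncountable families. -/

open Set

namespace Pool.Agent.KS6_90.HD

/-- every function on an uncountable set is constant or injective on an uncountable subset -/
theorem refine_one {J Ω : Type} (f : J → Ω) (I : Set J) (hI : ¬ I.Countable) :
    ∃ I' ⊆ I, ¬ I'.Countable ∧
      ((∀ α ∈ I', ∀ β ∈ I', f α = f β) ∨ (∀ α ∈ I', ∀ β ∈ I', α ≠ β → f α ≠ f β)) := by
  classical
  by_cases h : ∃ ω, ¬ {α ∈ I | f α = ω}.Countable
  · obtain ⟨ω, hω⟩ := h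
    exact ⟨_, fun α hα => hα.1, hω, Or.inl fun α hα β hβ => hα.2.trans hβ.2.symm⟩
  · push Not at h
    have himg : ¬ (f '' I).Countable := by
      intro hc
      apply hI
      have hsub : I ⊆ ⋃ ω ∈ f '' I, {α ∈ I | f α = ω} := by
        intro α hα
        refine Set.mem_iUnion₂.mpr ⟨f α, ⟨α, hα, rfl⟩, hα, rfl⟩
      exact (hc.biUnion fun ω _ => h ω).mono hsub
    have hch : ∀ ω : f '' I, ∃ α, α ∈ I ∧ f α = ω := fun ω => ω.2
    choose g hg using hch
    refine ⟨Set.range g, ?_, ?_, Or.inr ?_⟩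
    · rintro _ ⟨ω, rfl⟩; exact (hg ω).1
    · intro hc
      apply himg
      have h2 : f '' I ⊆ f '' Set.range g := by
        intro ω hω
        exact ⟨g ⟨ω, hω⟩, ⟨_, rfl⟩, (hg ⟨ω, hω⟩).2⟩
      exact (hc.image f).mono h2
    · rintro _ ⟨ω, rfl⟩ _ ⟨ω', rfl⟩ hne heq
      apply hne
      rw [(hg ω).2, (hg ω').2] at heq
      rw [Subtype.ext heq]

/-- simultaneously for finitely many functions -/
theorem refine_all {J Ω ι : Type} [Finite ι] (F : J → ι → Ω) (I : Set J) (hI : ¬ I.Countable) :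
    ∃ I' ⊆ I, ¬ I'.Countable ∧ ∀ i,
      ((∀ α ∈ I', ∀ β ∈ I', F α i = F β i) ∨ (∀ α ∈ I', ∀ β ∈ I', α ≠ β → F α i ≠ F β i)) := by
  classical
  have := Fintype.ofFinite ι
  suffices h : ∀ s : Finset ι, ∃ I' ⊆ I, ¬ I'.Countable ∧ ∀ i ∈ s,
      ((∀ α ∈ I', ∀ β ∈ I', F α i = F β i) ∨ (∀ α ∈ I', ∀ β ∈ I', α ≠ β → F α i ≠ F β i)) by
    obtain ⟨I', h1, h2, h3⟩ := h Finset.univ
    exact ⟨I', h1, h2, fun i => h3 i (Finset.mem_univ i)⟩
  intro s
  induction s using Finset.induction_on with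
  | empty => exact ⟨I, Subset.rfl, hI, fun i hi => absurd hi (Finset.notMem_empty i)⟩
  | insert i s _ IH =>
    obtain ⟨I', h1, h2, h3⟩ := IH
    obtain ⟨I'', h4, h5, h6⟩ := refine_one (fun α => F α i) I' h2
    refine ⟨I'', h4.trans h1, h5, fun j hj => ?_⟩
    rcases Finset.mem_insert.1 hj with rfl | hj
    · exact h6
    · rcases h3 j hj with h7 | h7
      · exact Or.inl fun α hα β hβ => h7 α (h4 hα) β (h4 hβ)
      · exact Or.inr fun α hα β hβ => h7 α (h4 hα) β (h4 hβ)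

/-- uncountably many pairwise disjoint pairs -/
theorem many_pairs {J : Type} (R : J → J → Prop) (I : Set J) (hI : ¬ I.Countable)
    (hR : ∀ I' ⊆ I, ¬ I'.Countable → ∃ α ∈ I', ∃ β ∈ I', α ≠ β ∧ R α β) :
    ∃ P : Set (J × J), ¬ P.Countable ∧
      (∀ p ∈ P, p.1 ∈ I ∧ p.2 ∈ I ∧ p.1 ≠ p.2 ∧ R p.1 p.2) ∧
      (∀ p ∈ P, ∀ q ∈ P, p ≠ q → p.1 ≠ q.1) := by
  classical
  let good : Set (Set (J × J)) := {P | (∀ p ∈ P, p.1 ∈ I ∧ p.2 ∈ I ∧ p.1 ≠ p.2 ∧ R p.1 p.2) ∧
      (∀ p ∈ P, ∀ q ∈ P, p ≠ q → p.1 ≠ q.1)}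
  obtain ⟨P, hP⟩ := zorn_subset good (by
    intro c hc hch
    refine ⟨⋃₀ c, ⟨?_, ?_⟩, fun s hs => Set.subset_sUnion_of_mem hs⟩
    · rintro p ⟨s, hs, hp⟩
      exact (hc hs).1 p hp
    · rintro p ⟨s, hs, hp⟩ q ⟨t, ht, hq⟩ hne
      rcases hch.total hs ht with h | h
      · exact (hc ht).2 p (h hp) q hq hne
      · exact (hc hs).2 p hp q (h hq) hne)
  refine ⟨P, ?_, hP.prop.1, hP.prop.2⟩
  intro hc
  have hI' : ¬ (I \ (Prod.fst '' P)).Countable := by
    intro h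
    apply hI
    exact (h.union (hc.image Prod.fst)).mono (by
      intro x hx
      by_cases h' : x ∈ Prod.fst '' P
      · exact Or.inr h'
      · exact Or.inl ⟨hx, h'⟩)
  obtain ⟨α, hα, β, hβ, hne, h⟩ := hR _ Set.sdiff_subset hI'
  have hins : insert (α, β) P ∈ good := by
    refine ⟨?_, ?_⟩
    · rintro p (rfl | hp)
      · exact ⟨hα.1, hβ.1, hne, h⟩
      · exact hP.prop.1 p hp
    · rintro p (rfl | hp) q (rfl | hq) hpq
      · exact absurd rfl hpq
      · intro heq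
        exact hα.2 ⟨q, hq, heq.symm⟩
      · intro heq
        exact hα.2 ⟨p, hp, heq⟩
      · exact hP.prop.2 p hp q hq hpq
  have h1 : (α, β) ∈ P := hP.le_of_ge hins (Set.subset_insert _ _) (Set.mem_insert _ _)
  exact hα.2 ⟨(α, β), h1, rfl⟩

/-- a nonseparable metric space has an uncountable uniformly separated subset -/
theorem exists_separated {M : Type} [PseudoMetricSpace M]
    (h : ¬ TopologicalSpace.SeparableSpace M) :
    ∃ ε : ℝ, 0 < ε ∧ ∃ W : Set M, ¬ W.Countable ∧ ∀ x ∈ W, ∀ y ∈ W, x ≠ y → ε ≤ dist x y := by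
  classical
  by_contra hcon
  push Not at hcon
  apply h
  have hsc : SecondCountableTopology M := by
    refine Metric.secondCountable_of_almost_dense_set fun ε hε => ?_
    obtain ⟨P, hP⟩ := zorn_subset {W : Set M | ∀ x ∈ W, ∀ y ∈ W, x ≠ y → ε ≤ dist x y} (by
      intro c hc hch
      refine ⟨⋃₀ c, ?_, fun s hs => Set.subset_sUnion_of_mem hs⟩
      rintro p ⟨s, hs, hp⟩ q ⟨t, ht, hq⟩ hne
      rcases hch.total hs ht with h | h
      · exact hc ht p (h hp) q hq hne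
      · exact hc hs p hp q (h hq) hne)
    refine ⟨P, ?_, fun x => ?_⟩
    · by_contra hcc
      obtain ⟨x, hx, y, hy, hne, hlt⟩ := hcon ε hε P hcc
      exact absurd (hP.prop x hx y hy hne) (not_le.2 hlt)
    · by_contra hx
      push Not at hx
      have hins : insert x P ∈ {W : Set M | ∀ x ∈ W, ∀ y ∈ W, x ≠ y → ε ≤ dist x y} := by
        rintro p (rfl | hp) q (rfl | hq) hpq
        · exact absurd rfl hpq
        · exact (hx q hq).le
        · rw [dist_comm]; exact (hx p hp).le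
        · exact hP.prop p hp q hq hpq
      have h1 : x ∈ P := hP.le_of_ge hins (Set.subset_insert _ _) (Set.mem_insert _ _)
      have h2 := hx x h1
      rw [dist_self] at h2
      linarith
  infer_instance

end Pool.Agent.KS6_90.HD
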