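import Pool.Agent.KS6_90.HD.Fam

/-! The constant `3 / 2` is optimal for the space. -/

open scoped ENNReal
open Set Filter

namespace Pool.Agent.KS6_90.HD

open Pool.Agent.Helper627_Conc

section fam

variable {Ω : Type} (r : Ω → ℕ → Bool) (Z : Ω → Ω → Prop)
variable {ι : Type} [Fintype ι] {F G : ι → Ω} {m : ℕ}

theorem abs_phi_inr (hr : Function.Injective r) (ξ η ζ : Ω) :
    |phi r Z (Sum.inr (ξ, η)) ζ| ≤ 3/4 := by
  by_cases h : ξ ≠ η ∧ Z ξ η
  · rcases phi_pair_cases r Z hr h.1 h.2 ζ with ⟨_, h1⟩ | ⟨_, h1⟩ | h1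
    · rw [h1]; norm_num [abs_le]
    · rw [h1]; norm_num [abs_le]
    · linarith
  · rw [phi_pair_zero r Z h]; norm_num

theorem sum_phi_all (hr : Function.Injective r) (hFG : ∀ i, ∀ k < m, r (F i) k = r (G i) k)
    (hsep : ∀ i j, i ≠ j → ∃ k < m, r (F i) k ≠ r (F j) k) (j : Idx Ω) :
    ∑ i, |phi r Z j (F i) - phi r Z j (G i)| ≤ 3/2 := by
  rcases j with ⟨n, t⟩ | ⟨ξ, η⟩
  · exact (sum_chi r hFG hsep n t).trans (by norm_num)
  · by_cases h : ξ ≠ η ∧ Z ξ η
    swap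
    · rw [Finset.sum_eq_zero]
      · norm_num
      · intro i _
        rw [phi_pair_zero r Z h, phi_pair_zero r Z h, sub_self, abs_zero]
    · obtain ⟨hl1, hl2⟩ := lev_spec r hr h.1
      have hphi := phi_def r Z h.1 h.2
      rcases Nat.lt_or_ge (lev r ξ η) m with hlm | hlm
      · -- low level
        have hle : ∀ i, |phi r Z (Sum.inr (ξ, η)) (F i) - phi r Z (Sum.inr (ξ, η)) (G i)| ≤
            (1/2) * |ind (F i) ξ - ind (G i) ξ| + (1/2) * |ind (F i) η - ind (G i) η| := by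
          intro i
          rw [hphi, hphi, chi_eq r hFG hlm ξ i, chi_eq r hFG hlm η i]
          have e1 : (1/2) * (ind (F i) ξ - ind (F i) η) +
              (1/4) * (chi r (lev r ξ η + 1) ξ (G i) - chi r (lev r ξ η + 1) η (G i)) -
              ((1/2) * (ind (G i) ξ - ind (G i) η) +
              (1/4) * (chi r (lev r ξ η + 1) ξ (G i) - chi r (lev r ξ η + 1) η (G i))) =
              (1/2) * (ind (F i) ξ - ind (G i) ξ) - (1/2) * (ind (F i) η - ind (G i) η) := by ring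
          rw [e1]
          refine (abs_sub _ _).trans ?_
          rw [abs_mul, abs_mul]
          norm_num
        refine (Finset.sum_le_sum fun i _ => hle i).trans ?_
        rw [Finset.sum_add_distrib, ← Finset.mul_sum, ← Finset.mul_sum]
        have h1 := sum_ind r hFG hsep ξ
        have h2 := sum_ind r hFG hsep η
        linarith
      · -- high level
        have h0 : ∑ i, (2/3) * |phi r Z (Sum.inr (ξ, η)) (F i) -
            phi r Z (Sum.inr (ξ, η)) (G i)| ≤ 1 := by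
          refine sum_le_one_of_unique _ (fun i => ?_) ?_
          · have h1 := abs_phi_inr r Z hr ξ η (F i)
            have h2 := abs_phi_inr r Z hr ξ η (G i)
            have h3 := abs_sub (phi r Z (Sum.inr (ξ, η)) (F i)) (phi r Z (Sum.inr (ξ, η)) (G i))
            linarith
          · have key0 : ∀ ζ, phi r Z (Sum.inr (ξ, η)) ζ ≠ 0 → ∀ k < m, r ζ k = r ξ k := by
              intro ζ hζ k hk
              by_contra hne
              exact hζ (phi_off r Z hr h.1 h.2 (hk.trans_le hlm) hne)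
            have key : ∀ i, (2/3) * |phi r Z (Sum.inr (ξ, η)) (F i) -
                phi r Z (Sum.inr (ξ, η)) (G i)| ≠ 0 → ∀ k < m, r (F i) k = r ξ k := by
              intro i hi k hk
              by_cases h1 : phi r Z (Sum.inr (ξ, η)) (F i) = 0
              · by_cases h2 : phi r Z (Sum.inr (ξ, η)) (G i) = 0
                · rw [h1, h2] at hi; simp at hi
                · rw [hFG i k hk]; exact key0 _ h2 k hk
              · exact key0 _ h1 k hk
            intro i j hi hj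
            exact uniq r hsep (key i hi) (key j hj)
        rw [← Finset.mul_sum] at h0
        linarith

end fam

variable {𝕜 : Type} [RCLike 𝕜] {Ω : Type} (r : Ω → ℕ → Bool) (Z : Ω → Ω → Prop)

theorem est_all {ι : Type} [Fintype ι] {F G : ι → Ω} {m : ℕ} (hr : Function.Injective r)
    (hFG : ∀ i, ∀ k < m, r (F i) k = r (G i) k)
    (hsep : ∀ i j, i ≠ j → ∃ k < m, r (F i) k ≠ r (F j) k) (a : ι → 𝕜) {A : ℝ}
    (hA0 : 0 ≤ A) (hA : ∀ i, ‖a i‖ ≤ A) :
    ‖∑ i, a i • (zz 𝕜 r Z hr (F i) - zz 𝕜 r Z hr (G i))‖ ≤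
      (3/2) * A + (1/4) * (1/2)^m * A := by
  rw [norm_EE]
  refine add_le_add ?_ ?_
  · refine norm_fst_le (by positivity) fun j => ?_
    rw [map_sum]
    refine (norm_sum_le _ _).trans ?_
    have h1 : ∀ i, ‖cu j (a i • (zz 𝕜 r Z hr (F i) - zz 𝕜 r Z hr (G i)))‖ ≤
        A * |phi r Z j (F i) - phi r Z j (G i)| := by
      intro i
      rw [map_smul, map_sub, cu_zz, cu_zz, smul_eq_mul, norm_mul, ← RCLike.ofReal_sub,
        RCLike.norm_ofReal]
      exact mul_le_mul_of_nonneg_right (hA i) (abs_nonneg _)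
    refine (Finset.sum_le_sum fun i _ => h1 i).trans ?_
    rw [← Finset.mul_sum]
    calc A * ∑ i, |phi r Z j (F i) - phi r Z j (G i)| ≤ A * (3/2) :=
          mul_le_mul_of_nonneg_left (sum_phi_all r Z hr hFG hsep j) hA0
      _ = (3/2) * A := by ring
  · refine norm_snd_le (by positivity) fun p => ?_
    rw [map_sum]
    refine (norm_sum_le _ _).trans ?_
    have h1 : ∀ i, ‖cv p (a i • (zz 𝕜 r Z hr (F i) - zz 𝕜 r Z hr (G i)))‖ ≤
        (A * ((1/4) * (1/2)^p.1)) * |chi r p.1 p.2 (F i) - chi r p.1 p.2 (G i)| := by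
      intro i
      rw [map_smul, map_sub, cv_zz, cv_zz, smul_eq_mul, norm_mul, ← RCLike.ofReal_sub,
        RCLike.norm_ofReal]
      have h2 : psi r p (F i) - psi r p (G i) =
          ((1/4) * (1/2)^p.1) * (chi r p.1 p.2 (F i) - chi r p.1 p.2 (G i)) := by
        unfold psi; ring
      rw [h2, abs_mul, abs_of_nonneg (show (0:ℝ) ≤ (1/4) * (1/2)^p.1 by positivity)]
      have h3 : (0:ℝ) ≤ ((1/4) * (1/2)^p.1) * |chi r p.1 p.2 (F i) - chi r p.1 p.2 (G i)| := by
        positivity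
      have h4 := mul_le_mul_of_nonneg_right (hA i) h3
      linarith [h4]
    refine (Finset.sum_le_sum fun i _ => h1 i).trans ?_
    rcases le_or_gt p.1 m with hp | hp
    · rw [Finset.sum_eq_zero]
      · positivity
      · intro i _
        rw [chi_eq r hFG hp p.2 i, sub_self, abs_zero, mul_zero]
    · rw [← Finset.mul_sum]
      have h2 := sum_chi r hFG hsep p.1 p.2
      have h3 : ((1:ℝ)/2)^p.1 ≤ (1/2)^m :=
        pow_le_pow_of_le_one (by norm_num) (by norm_num) hp.le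
      have h4 : (0:ℝ) ≤ A * ((1/4) * (1/2)^p.1) := by positivity
      calc (A * ((1/4) * (1/2)^p.1)) * ∑ i, |chi r p.1 p.2 (F i) - chi r p.1 p.2 (G i)|
          ≤ (A * ((1/4) * (1/2)^p.1)) * 1 := mul_le_mul_of_nonneg_left h2 h4
        _ = (1/4 * A) * (1/2)^p.1 := by ring
        _ ≤ (1/4 * A) * (1/2)^m := mul_le_mul_of_nonneg_left h3 (by positivity)
        _ = 1 / 4 * (1 / 2) ^ m * A := by ring

/-- uncountable subsets of the sphere have uncountable subsets of diameter at most `3 / 2` -/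
theorem sphere_sharp [Nonempty Ω] (hr : Function.Injective r)
    (W : Set (EE 𝕜 Ω)) (hWX : ∀ w ∈ W, w ∈ XX 𝕜 r Z hr) (hW1 : ∀ w ∈ W, ‖w‖ = 1)
    (hW : ¬ W.Countable) :
    ∃ W' ⊆ W, ¬ W'.Countable ∧ ∀ w ∈ W', ∀ w' ∈ W', ‖w - w'‖ < 3/2 := by
  classical
  have hpos : ∀ w ∈ W, 0 < ‖w.snd‖ := by
    intro w hw
    by_contra h
    have h1 : w.snd = 0 := norm_eq_zero.1 (le_antisymm (not_lt.1 h) (norm_nonneg _))
    have h2 := inj r Z hr (hWX w hw) h1
    have h3 := norm_EE w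
    rw [h1, h2, hW1 w hw] at h3
    simp at h3
  obtain ⟨N, hN⟩ : ∃ N : ℕ, ¬ {w ∈ W | 5 * (1 / ((N : ℝ) + 1)) ≤ ‖w.snd‖}.Countable := by
    by_contra hall
    push Not at hall
    apply hW
    refine (Set.countable_iUnion hall).mono fun w hw => ?_
    obtain ⟨N, hN⟩ := exists_nat_one_div_lt (show (0:ℝ) < ‖w.snd‖ / 5 by
      have := hpos w hw; positivity)
    refine Set.mem_iUnion.2 ⟨N, hw, ?_⟩
    linarith
  set ε : ℝ := 1 / ((N : ℝ) + 1) with hεdef
  have hε : 0 < ε := by positivity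
  obtain ⟨n, a, m, s, I', F, hI', hI'c, hs, hm, hF⟩ :=
    exists_code r Z hr (fun w : EE 𝕜 Ω => w) _ hN (fun w hw => hWX w hw.1) hε
  refine ⟨I', fun w hw => (hI' hw).1, hI'c, fun w hw w' hw' => ?_⟩
  obtain ⟨hF1, hF2⟩ := hF w hw
  obtain ⟨hF1', hF2'⟩ := hF w' hw'
  have hFG : ∀ i, ∀ l < m, r (F w i) l = r (F w' i) l := by
    intro i l hl
    rw [hF1 i ⟨l, hl⟩, hF1' i ⟨l, hl⟩]
  have hsep : ∀ i j, i ≠ j → ∃ l < m, r (F w i) l ≠ r (F w j) l := by
    intro i j hij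
    by_contra hcon
    push Not at hcon
    apply hs i j hij
    funext l
    rw [← hF1 i l, ← hF1 j l]
    exact hcon l l.2
  have hfst : ‖w.fst‖ ≤ 1 - 5 * ε := by
    have h1 := norm_EE w
    rw [hW1 w (hI' hw).1] at h1
    have h2 : 5 * ε ≤ ‖w.snd‖ := (hI' hw).2
    linarith
  have hA : ∀ i, ‖a i‖ ≤ 1 - 4 * ε := by
    intro i
    have h1 := est2 r Z hr hsep a i
    have h2 : ‖(∑ j, a j • zz 𝕜 r Z hr (F w j)).fst‖ ≤ ‖w.fst‖ + ε := by
      have h3 : (∑ j, a j • zz 𝕜 r Z hr (F w j)).fst =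
          w.fst - (w - ∑ j, a j • zz 𝕜 r Z hr (F w j)).fst := by
        rw [WithLp.sub_fst]; abel
      rw [h3]
      refine (norm_sub_le _ _).trans (add_le_add le_rfl ?_)
      exact (norm_fst_le_norm _).trans hF2.le
    linarith
  have hA0 : 0 ≤ 1 - 4 * ε := by linarith [norm_nonneg w.fst]
  have hest := est_all r Z hr hFG hsep a hA0 hA
  have hsplit : w - w' = (w - ∑ i, a i • zz 𝕜 r Z hr (F w i)) +
      (∑ i, a i • (zz 𝕜 r Z hr (F w i) - zz 𝕜 r Z hr (F w' i))) -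
      (w' - ∑ i, a i • zz 𝕜 r Z hr (F w' i)) := by
    simp only [smul_sub, Finset.sum_sub_distrib]
    abel
  have h5 : (1/4) * (1/2)^m * (1 - 4 * ε) ≤ (1/4) * ε * 1 := by
    refine mul_le_mul ?_ (by linarith) hA0 (by positivity)
    exact mul_le_mul_of_nonneg_left hm (by norm_num)
  rw [hsplit]
  calc _ ≤ ‖(w - ∑ i, a i • zz 𝕜 r Z hr (F w i)) +
      (∑ i, a i • (zz 𝕜 r Z hr (F w i) - zz 𝕜 r Z hr (F w' i)))‖ +
      ‖(w' - ∑ i, a i • zz 𝕜 r Z hr (F w' i))‖ := norm_sub_le _ _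
    _ ≤ (‖(w - ∑ i, a i • zz 𝕜 r Z hr (F w i))‖ +
      ‖(∑ i, a i • (zz 𝕜 r Z hr (F w i) - zz 𝕜 r Z hr (F w' i)))‖) +
      ‖(w' - ∑ i, a i • zz 𝕜 r Z hr (F w' i))‖ := by gcongr; exact norm_add_le _ _
    _ < 3/2 := by
      have h6 : ‖w - ∑ i, a i • zz 𝕜 r Z hr (F w i)‖ < ε := hF2
      have h7 : ‖w' - ∑ i, a i • zz 𝕜 r Z hr (F w' i)‖ < ε := hF2'
      linarith

end Pool.Agent.KS6_90.HD
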