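import Pool.Graph.R_pool_sql_team_seeded_620a6dc7.Helper627_Conc.Main
import Pool.Agent.KS6_90.HD.Refine

/-! Values of the pair functionals, and uncountable families of differences. -/

open scoped ENNReal
open Set Filter

namespace Pool.Agent.KS6_90.HD

open Pool.Agent.Helper627_Conc

variable {𝕜 : Type} [RCLike 𝕜] {Ω : Type} (r : Ω → ℕ → Bool) (Z : Ω → Ω → Prop)

theorem chi_self (n : ℕ) (t : Ω) : chi r n t t = 1 := by
  rcases chi_cases r n t t with ⟨h, _⟩ | ⟨_, h⟩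
  · exact h
  · exact absurd (fun k _ => rfl) h

theorem chi_zero {n : ℕ} {t ζ : Ω} {k : ℕ} (hk : k < n) (h : r ζ k ≠ r t k) :
    chi r n t ζ = 0 := by
  rcases chi_cases r n t ζ with ⟨_, h'⟩ | ⟨h', _⟩
  · exact absurd (h' k hk) h
  · exact h'

theorem ind_self (a : Ω) : ind a a = 1 := by
  rcases ind_cases a a with ⟨h, _⟩ | ⟨_, h⟩
  · exact h
  · exact absurd rfl h

theorem ind_ne {a b : Ω} (h : a ≠ b) : ind a b = 0 := by
  rcases ind_cases a b with ⟨_, h'⟩ | ⟨h', _⟩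
  · exact absurd h' h
  · exact h'

theorem phi_def {ξ η : Ω} (h : ξ ≠ η) (hZ : Z ξ η) (ζ : Ω) :
    phi r Z (Sum.inr (ξ, η)) ζ = (1/2) * (ind ζ ξ - ind ζ η) +
        (1/4) * (chi r (lev r ξ η + 1) ξ ζ - chi r (lev r ξ η + 1) η ζ) := by
  simp only [phi]
  exact if_pos ⟨h, hZ⟩

theorem phi_fst (hr : Function.Injective r) {ξ η : Ω} (h : ξ ≠ η) (hZ : Z ξ η) :
    phi r Z (Sum.inr (ξ, η)) ξ = 3/4 := by
  have hl := (lev_spec r hr h).1
  rw [phi_def r Z h hZ, ind_self, ind_ne h, chi_self,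
    chi_zero r (Nat.lt_succ_self _) hl]
  norm_num

theorem phi_snd (hr : Function.Injective r) {ξ η : Ω} (h : ξ ≠ η) (hZ : Z ξ η) :
    phi r Z (Sum.inr (ξ, η)) η = -(3/4) := by
  have hl := (lev_spec r hr h).1
  rw [phi_def r Z h hZ, ind_self, ind_ne h.symm, chi_self,
    chi_zero r (Nat.lt_succ_self _) hl.symm]
  norm_num

theorem phi_off (hr : Function.Injective r) {ξ η ζ : Ω} (h : ξ ≠ η) (hZ : Z ξ η) {k : ℕ}
    (hk : k < lev r ξ η) (hζ : r ζ k ≠ r ξ k) :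
    phi r Z (Sum.inr (ξ, η)) ζ = 0 := by
  have hl := (lev_spec r hr h).2 k hk
  have h1 : ζ ≠ ξ := by rintro rfl; exact hζ rfl
  have h2 : ζ ≠ η := by rintro rfl; exact hζ hl.symm
  rw [phi_def r Z h hZ, ind_ne h1, ind_ne h2, chi_zero r (hk.trans (Nat.lt_succ_self _)) hζ,
    chi_zero r (hk.trans (Nat.lt_succ_self _)) (by rw [← hl]; exact hζ)]
  norm_num

theorem lev_gt (hr : Function.Injective r) {ξ η : Ω} (h : ξ ≠ η) {M : ℕ}
    (hM : ∀ k < M, r ξ k = r η k) : M ≤ lev r ξ η := by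
  by_contra hlt
  exact (lev_spec r hr h).1 (hM _ (not_le.1 hlt))

theorem norm_cu_le' (j : Idx Ω) (w : EE 𝕜 Ω) : ‖cu j w‖ ≤ ‖w‖ :=
  (norm_cu_le j w).trans (norm_fst_le_norm w)

/-- good approximations with a common code for an uncountable family -/
theorem exists_code (hr : Function.Injective r) [Nonempty Ω] {J : Type} (w : J → EE 𝕜 Ω)
    (I : Set J) (hI : ¬ I.Countable) (hwX : ∀ α ∈ I, w α ∈ XX 𝕜 r Z hr) {ε : ℝ} (hε : 0 < ε) :
    ∃ (n : ℕ) (a : Fin n → 𝕜) (m : ℕ) (s : Fin n → Fin m → Bool) (I' : Set J)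
      (F : J → Fin n → Ω), I' ⊆ I ∧ ¬ I'.Countable ∧ (∀ i j, i ≠ j → s i ≠ s j) ∧
      ((1:ℝ)/2)^m ≤ ε ∧ ∀ α ∈ I', (∀ i (l : Fin m), r (F α i) l = s i l) ∧
        ‖w α - ∑ i, a i • zz 𝕜 r Z hr (F α i)‖ < ε := by
  classical
  let Code : Type := Σ n : ℕ, (Fin n → ℕ) × (Σ m : ℕ, Fin n → Fin m → Bool)
  let WW : Code → Set J := fun d =>
    {α | α ∈ I ∧ (∀ i j, i ≠ j → d.2.2.2 i ≠ d.2.2.2 j) ∧
      ((1:ℝ)/2)^d.2.2.1 ≤ ε ∧
      ∃ F : Fin d.1 → Ω, (∀ i (l : Fin d.2.2.1), r (F i) l = d.2.2.2 i l) ∧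
        ‖w α - ∑ i, TopologicalSpace.denseSeq 𝕜 (d.2.1 i) • zz 𝕜 r Z hr (F i)‖ < ε}
  obtain ⟨d, hd⟩ : ∃ d : Code, ¬ (WW d).Countable := by
    by_contra hall
    push Not at hall
    apply hI
    refine (Set.countable_iUnion hall).mono fun α hα => ?_
    obtain ⟨n, F, hF, k, hk⟩ := approx r Z hr (hwX α hα) hε
    obtain ⟨m₀, hm₀⟩ := exists_sep_level r hr F hF
    obtain ⟨m₁, hm₁⟩ := exists_pow_lt_of_lt_one hε (show (1/2 : ℝ) < 1 by norm_num)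
    let m := max m₀ m₁
    refine Set.mem_iUnion.2 ⟨⟨n, k, m, fun i l => r (F i) l⟩, hα, ?_, ?_, F, ?_, hk⟩
    · intro i j hij heq
      obtain ⟨l, hl, hne⟩ := hm₀ m (le_max_left _ _) i j hij
      exact hne (congrFun heq ⟨l, hl⟩)
    · exact (pow_le_pow_of_le_one (by norm_num) (by norm_num) (le_max_right m₀ m₁)).trans hm₁.le
    · intro i l; rfl
  obtain ⟨n, k, m, s⟩ := d
  have hchoose : ∀ α : J, ∃ F : Fin n → Ω, α ∈ WW ⟨n, k, m, s⟩ →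
      ((∀ i (l : Fin m), r (F i) l = s i l) ∧
        ‖w α - ∑ i, TopologicalSpace.denseSeq 𝕜 (k i) • zz 𝕜 r Z hr (F i)‖ < ε) := by
    intro α
    by_cases h : α ∈ WW ⟨n, k, m, s⟩
    · obtain ⟨F, hF⟩ := h.2.2.2
      exact ⟨F, fun _ => hF⟩
    · exact ⟨fun _ => Classical.arbitrary Ω, fun h' => absurd h' h⟩
  choose F hF using hchoose
  have hne : (WW ⟨n, k, m, s⟩).Nonempty := by
    by_contra hemp
    rw [Set.not_nonempty_iff_eq_empty] at hemp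
    rw [hemp] at hd
    exact hd Set.countable_empty
  obtain ⟨α₀, hα₀⟩ := hne
  exact ⟨n, fun i => TopologicalSpace.denseSeq 𝕜 (k i), m, s, WW ⟨n, k, m, s⟩, F,
    fun α hα => hα.1, hd, hα₀.2.1, hα₀.2.2.1, fun α hα => hF α hα⟩

end Pool.Agent.KS6_90.HD
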